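import Pool.Agent.N912.PY.Stm

/-!
# Project PY (helper912), PY20 (helper700): a Pythagorean triple in one level set
-/

set_option autoImplicit false

namespace Pool.Agent.N700.PY.BT

open Finset Filter Topology
open scoped ComplexConjugate
open Pool.Agent.N912.PY

/-! ### Characters -/

section fn

variable {G : Type} [AddCommGroup G] [Finite G] {f : ℕ → G}

theorem f_one (hf : CA f) : f 1 = 0 := by
  have h := hf 1 1 one_pos one_pos
  rw [mul_one] at h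
  exact (add_eq_left.1 h.symm)

theorem f_pow (hf : CA f) {n : ℕ} (hn : 0 < n) (j : ℕ) : f (n ^ j) = j • f n := by
  induction j with
  | zero => rw [pow_zero, f_one hf, zero_nsmul]
  | succ j ih => rw [pow_succ, hf _ _ (pow_pos hn j) hn, ih, succ_nsmul]

/-- the multiplicative function of a character -/
noncomputable def gg (f : ℕ → G) (ψ : AddChar G ℂ) (n : ℕ) : ℂ := if n = 0 then 0 else ψ (f n)

theorem gg_pos (f : ℕ → G) (ψ : AddChar G ℂ) {n : ℕ} (hn : 0 < n) : gg f ψ n = ψ (f n) :=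
  if_neg hn.ne'

theorem gg_CM (hf : CA f) (ψ : AddChar G ℂ) : CM (Nat.card G) (gg f ψ) where
  pos := Nat.card_pos
  zero := if_pos rfl
  mul := by
    intro m n hm hn
    rw [gg_pos f ψ (Nat.mul_pos hm hn), gg_pos f ψ hm, gg_pos f ψ hn, hf m n hm hn,
      AddChar.map_add_eq_mul]
  pow := by
    intro n hn
    rw [gg_pos f ψ hn, ← AddChar.map_nsmul_eq_pow, card_nsmul_eq_zero', AddChar.map_zero_eq_one]

theorem CM_conj {N : ℕ} {g g' : ℕ → ℂ} (h : CM N g) (h' : CM N g') :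
    CM N (fun n => conj (g n * g' n)) where
  pos := h.pos
  zero := by simp [h.zero]
  mul := by
    intro m n hm hn
    rw [h.mul m n hm hn, h'.mul m n hm hn, ← map_mul]
    congr 1
    ring
  pow := by
    intro n hn
    rw [← map_pow, mul_pow, h.pow n hn, h'.pow n hn, mul_one, map_one]

theorem char_conj (ψ : AddChar G ℂ) (x : G) : ψ x * conj (ψ x) = 1 := by
  rw [Complex.mul_conj']
  rw [AddChar.norm_apply]
  simp

theorem char_neg (ψ : AddChar G ℂ) (x : G) : ψ (-x) = conj (ψ x) := by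
  have h1 : ψ x * ψ (-x) = 1 := by
    rw [← AddChar.map_add_eq_mul, add_neg_cancel, AddChar.map_zero_eq_one]
  have h2 := char_conj ψ x
  have h3 : ψ x ≠ 0 := left_ne_zero_of_mul_eq_one h1
  exact mul_left_cancel₀ h3 (h1.trans h2.symm)

theorem char_sub (ψ : AddChar G ℂ) (x y : G) : ψ (x - y) = ψ x * conj (ψ y) := by
  rw [sub_eq_add_neg, AddChar.map_add_eq_mul, char_neg]

theorem pt_one (hf : CA f) : Pt (gg f (1 : AddChar G ℂ)) := by
  refine ⟨1, 1, le_rfl, ?_⟩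
  have h : (fun p : ℕ => if p.Prime ∧ gg f (1 : AddChar G ℂ) p ≠
      (1 : DirichletCharacter ℂ 1) (p : ZMod 1) then (1 : ℝ) / p else 0) = fun _ => 0 := by
    funext p
    rw [if_neg]
    rintro ⟨hp, h⟩
    apply h
    rw [gg_pos f _ hp.pos, AddChar.one_apply]
    have : ((p : ZMod 1)) = 1 := Subsingleton.elim _ _
    rw [this, map_one]
  convert (summable_zero : Summable fun _ : ℕ => (0 : ℝ)) using 1

end fn

/-- equality of `g` and of a character on the integers without bad prime factors -/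
theorem eq_char {N : ℕ} {g : ℕ → ℂ} (hg : CM N g) {q : ℕ} (χ : DirichletCharacter ℂ q) (h1 : g 1 = 1)
    {n : ℕ} (hn : 0 < n) (h : ∀ p : ℕ, p.Prime → p ∣ n → g p = χ (p : ZMod q)) :
    g n = χ (n : ZMod q) := by
  induction n using Nat.strong_induction_on with
  | _ n ih =>
    rcases Nat.eq_or_lt_of_le (Nat.succ_le_of_lt hn) with h2 | h2
    · have h3 : n = 1 := by omega
      subst h3
      rw [h1, Nat.cast_one, map_one]
    · have hp : (Nat.minFac n).Prime := Nat.minFac_prime (by omega)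
      obtain ⟨m, hm⟩ := Nat.minFac_dvd n
      have hm0 : 0 < m := by
        rcases Nat.eq_zero_or_pos m with h4 | h4
        · rw [h4, mul_zero] at hm
          omega
        · exact h4
      have hlt : m < n := by
        have := hp.two_le
        nlinarith
      have e1 := h _ hp (Nat.minFac_dvd n)
      have e2 := ih m hlt hm0 (fun p hpp hpm => h p hpp (hm ▸ Dvd.dvd.mul_left hpm _))
      rw [hm, hg.mul _ _ hp.pos hm0, Nat.cast_mul, map_mul]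
      have e3 : (Nat.minFac n * m).minFac = Nat.minFac n := by rw [← hm]
      rw [e1, e2]

theorem tail_zero {u : ℕ → ℝ} (hu : Summable u) :
    Tendsto (fun w : ℕ => ∑' p : ℕ, if w < p then u p else 0) atTop (𝓝 0) := by
  have h1 := (tendsto_sum_nat_add u).comp (tendsto_add_atTop_nat 1)
  refine h1.congr fun w => ?_
  have hv : Summable (fun p : ℕ => if w < p then u p else 0) := by
    refine Summable.of_norm_bounded (g := fun p => ‖u p‖) hu.norm fun p => ?_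
    split_ifs
    · exact le_rfl
    · rw [norm_zero]
      exact norm_nonneg _
  have h2 := hv.sum_add_tsum_nat_add (w + 1)
  rw [← h2]
  have h3 : ∑ i ∈ range (w + 1), (if w < i then u i else 0) = 0 := by
    refine Finset.sum_eq_zero fun i hi => ?_
    rw [Finset.mem_range] at hi
    rw [if_neg (by omega)]
  rw [h3, zero_add]
  refine tsum_congr fun i => ?_
  rw [if_pos (by omega)]

/-! ### Arithmetic -/

theorem exU (k w : ℕ) (hk : 2 ≤ k) : ∃ U : ℕ, 0 < U ∧ U.Coprime k ∧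
    (∀ p : ℕ, p.Prime → p ∣ U → p ≤ w) ∧ (∀ p : ℕ, p.Prime → p ≤ w → p ∣ k * U) := by
  classical
  refine ⟨∏ p ∈ (range (w + 1)).filter (fun p => p.Prime ∧ ¬ p ∣ k), p, ?_, ?_, ?_, ?_⟩
  · refine Finset.prod_pos fun p hp => ?_
    rw [Finset.mem_filter] at hp
    exact hp.2.1.pos
  · refine Nat.Coprime.prod_left fun p hp => ?_
    rw [Finset.mem_filter] at hp
    exact (Nat.Prime.coprime_iff_not_dvd hp.2.1).2 hp.2.2
  · intro p hp hd
    obtain ⟨i, hi, hpi⟩ := (Prime.dvd_finsetProd_iff hp.prime _).1 hd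
    rw [Finset.mem_filter, Finset.mem_range] at hi
    have : p = i := (Nat.prime_dvd_prime_iff_eq hp hi.2.1).1 hpi
    omega
  · intro p hp hpw
    by_cases h : p ∣ k
    · exact Dvd.dvd.mul_right h _
    · refine Dvd.dvd.mul_left (Finset.dvd_prod_of_mem _ ?_) _
      rw [Finset.mem_filter, Finset.mem_range]
      exact ⟨by omega, hp, h⟩

theorem dvd_pow_of (n W : ℕ) (hn : n ≠ 0) (hW : W ≠ 0) (h : ∀ p : ℕ, p.Prime → p ∣ n → p ∣ W) :
    n ∣ W ^ n := by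
  rw [← Nat.factorization_le_iff_dvd hn (pow_ne_zero _ hW)]
  intro p
  by_cases hp : p.Prime
  · by_cases hpn : p ∣ n
    · have h1 : 1 ≤ W.factorization p := by
        have := (hp.dvd_iff_one_le_factorization hW).1 (h p hp hpn)
        exact this
      have h2 : n.factorization p ≤ n := (Nat.factorization_lt p hn).le
      rw [Nat.factorization_pow, Finsupp.smul_apply, smul_eq_mul]
      nlinarith
    · rw [Nat.factorization_eq_zero_of_not_dvd hpn]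
      exact Nat.zero_le _
  · rw [Nat.factorization_eq_zero_of_not_prime _ hp]
    exact Nat.zero_le _

theorem mem_sec {R a₀ b₀ V x : ℕ} {z : ℕ × ℕ} : z ∈ sec R a₀ b₀ V x ↔
    ((1 ≤ z.1 ∧ z.1 ≤ a₀ * x) ∧ 1 ≤ z.2 ∧ z.2 ≤ x) ∧ R * z.2 ≤ z.1 ∧ b₀ * z.1 ≤ a₀ * z.2 ∧
      z.2 ≡ z.1 [MOD V] ∧ Nat.Coprime z.1 V := by
  unfold sec
  rw [Finset.mem_filter, Finset.mem_product, Finset.mem_Icc, Finset.mem_Icc]

theorem cop_of_modEq {a b V : ℕ} (h : a ≡ b [MOD V]) (hb : Nat.Coprime b V) : Nat.Coprime a V := by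
  unfold Nat.Coprime at *
  rw [h.gcd_eq]
  exact hb

/-- the pairs -/
structure Pr (V h m n d : ℕ) : Prop where
  m0 : 0 < m
  n0 : 0 < n
  d0 : 0 < d
  eq : m = d + h * n
  co : Nat.Coprime m V
  mod : n ≡ m [MOD V]
  dvd : V ∣ h

theorem Pr.facts {V h m n d : ℕ} (hp : Pr V h m n d) :
    m * n ≡ m ^ 2 [MOD V] ∧ d * (m + h * n) ≡ m ^ 2 [MOD V] ∧ m ^ 2 + h ^ 2 * n ^ 2 ≡ m ^ 2 [MOD V] ∧
    Nat.Coprime n V ∧ Nat.Coprime d V ∧ Nat.Coprime (m + h * n) V ∧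
    Nat.Coprime (m ^ 2 + h ^ 2 * n ^ 2) V := by
  obtain ⟨m0, n0, d0, eq, co, mod, dvd⟩ := hp
  have hhn : h * n ≡ 0 [MOD V] := (Nat.modEq_zero_iff_dvd).2 (Dvd.dvd.mul_right dvd n)
  have hh2 : h ^ 2 * n ^ 2 ≡ 0 [MOD V] := by
    refine (Nat.modEq_zero_iff_dvd).2 ?_
    exact Dvd.dvd.mul_right (Dvd.dvd.pow dvd two_ne_zero) _
  have e1 : m * n ≡ m ^ 2 [MOD V] := by
    rw [pow_two]
    exact Nat.ModEq.mul_left m mod
  have e3 : m ^ 2 + h ^ 2 * n ^ 2 ≡ m ^ 2 [MOD V] := by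
    have := Nat.ModEq.add_left (m ^ 2) hh2
    rwa [add_zero] at this
  have ed : m ≡ d [MOD V] := by
    have := Nat.ModEq.add_left d hhn
    rw [add_zero, ← eq] at this
    exact this
  have es : m + h * n ≡ m [MOD V] := by
    have := Nat.ModEq.add_left m hhn
    rwa [add_zero] at this
  have e2 : d * (m + h * n) ≡ m ^ 2 [MOD V] := by
    rw [pow_two]
    exact Nat.ModEq.mul ed.symm es
  have cm2 : Nat.Coprime (m ^ 2) V := Nat.Coprime.pow_left 2 co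
  exact ⟨e1, e2, e3, cop_of_modEq mod co, cop_of_modEq ed.symm co, cop_of_modEq es co,
    cop_of_modEq e3 cm2⟩

theorem cast_eq {q V a b : ℕ} (hq : q ∣ V) (h : a ≡ b [MOD V]) : ((a : ℕ) : ZMod q) = (b : ZMod q) :=
  (ZMod.natCast_eq_natCast_iff a b q).2 (h.of_dvd hq)

/-- the sizes -/
theorem sizes {m n d h R A K : ℕ} {η : ℝ} (hη : 0 < η) (hA : 1 ≤ A) (hAη : 8 ≤ η * A)
    (hAK : A ≤ K) (hR : R = 2 * h * K) (hm : m = d + h * n) (h1 : R * n ≤ m)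
    (h2 : A * m ≤ (A + 1) * R * n) :
    |(((R * m * n : ℕ)) : ℝ) - ((d * (m + h * n) : ℕ) : ℝ)| ≤ η * ((d * (m + h * n) : ℕ) : ℝ) ∧
    |(((m ^ 2 + h ^ 2 * n ^ 2 : ℕ)) : ℝ) - ((d * (m + h * n) : ℕ) : ℝ)| ≤
      η * ((d * (m + h * n) : ℕ) : ℝ) := by
  set M : ℝ := (m : ℝ) with hM
  set t : ℝ := (h : ℝ) * n with ht
  set r : ℝ := (R : ℝ) * n with hr
  have hA1 : (1 : ℝ) ≤ A := by exact_mod_cast hA
  have hM0 : 0 ≤ M := Nat.cast_nonneg _
  have ht0 : 0 ≤ t := by positivity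
  have hdM : (d : ℝ) = M - t := by
    rw [hM, hm, ht]
    push_cast
    ring
  have q1 : r ≤ M := by
    rw [hr, hM]
    exact_mod_cast h1
  have q2 : (A : ℝ) * M ≤ (A + 1) * r := by
    rw [hr, hM]
    have : ((A * m : ℕ) : ℝ) ≤ (((A + 1) * R * n : ℕ) : ℝ) := by exact_mod_cast h2
    push_cast at this
    linarith
  have q3 : r = 2 * t * K := by
    rw [hr, ht, hR]
    push_cast
    ring
  have hAK' : (A : ℝ) ≤ K := by exact_mod_cast hAK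
  have q4 : 2 * A * t ≤ M := by
    have : 2 * t * A ≤ 2 * t * K := by gcongr
    linarith
  have q5 : t ≤ M / 2 := by nlinarith
  -- `Y`
  have eY : ((d * (m + h * n) : ℕ) : ℝ) = M ^ 2 - t ^ 2 := by
    push_cast
    rw [hdM, ← hM, ← ht]
    ring
  have eX : ((R * m * n : ℕ) : ℝ) = r * M := by
    push_cast
    rw [hr, hM]
    ring
  have eZ : ((m ^ 2 + h ^ 2 * n ^ 2 : ℕ) : ℝ) = M ^ 2 + t ^ 2 := by
    push_cast
    rw [hM, ht]
    ring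
  rw [eX, eY, eZ]
  have hY : 3 / 4 * M ^ 2 ≤ M ^ 2 - t ^ 2 := by nlinarith
  -- `t² ≤ η M² / 32`
  have p1 : 4 * A * t ^ 2 ≤ M ^ 2 := by
    have : (2 * A * t) ^ 2 ≤ M ^ 2 := by gcongr
    have h5 : 4 * A * t ^ 2 ≤ (2 * A * t) ^ 2 := by
      have : (2 * (A : ℝ) * t) ^ 2 = 4 * A * t ^ 2 * A := by ring
      rw [this]
      exact le_mul_of_one_le_right (by positivity) hA1
    linarith
  have p2 : 32 * t ^ 2 ≤ η * M ^ 2 := by
    have h5 : 8 * (4 * t ^ 2) ≤ (η * A) * (4 * t ^ 2) := by gcongr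
    have h6 : η * (4 * A * t ^ 2) ≤ η * M ^ 2 := by gcongr
    linarith
  have p3 : (A : ℝ) * (M - r) ≤ M := by nlinarith
  have p4 : 8 * (M * (M - r)) ≤ η * M ^ 2 := by
    have h5 : 8 * (M * (M - r)) ≤ (η * A) * (M * (M - r)) := by
      have : 0 ≤ M * (M - r) := mul_nonneg hM0 (by linarith)
      gcongr
    have h6 : (η * M) * (A * (M - r)) ≤ (η * M) * M := by gcongr
    linarith
  have hηY : 3 / 4 * (η * M ^ 2) ≤ η * (M ^ 2 - t ^ 2) := by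
    have := mul_le_mul_of_nonneg_left hY hη.le
    linarith
  constructor
  · rw [abs_le]
    constructor
    · have : M ^ 2 - r * M = M * (M - r) := by ring
      nlinarith [sq_nonneg t]
    · have : r * M ≤ M ^ 2 := by nlinarith
      nlinarith [sq_nonneg t]
  · rw [abs_le]
    constructor <;> nlinarith [sq_nonneg t]

/-- the number `V₁` -/
theorem arith {k w L N A : ℕ} (hk : 2 ≤ k) (hkw : k ≤ w) (hN : 1 ≤ N) (hA : 1 ≤ A) :
    ∃ U B : ℕ, 0 < U ∧ 1 ≤ B ∧ N ∣ B ∧ A ≤ B ∧ U.Coprime k ∧ (U ^ B ≡ 1 [MOD k ^ L]) ∧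
      (∀ p : ℕ, p.Prime → p ∣ k * U → p ≤ w) ∧
      ∀ b : ℕ, B ≤ b → 2 * w.factorial ^ (L + 1) ∣ k ^ b * U ^ B := by
  obtain ⟨U, hU0, hUk, hU1, hU2⟩ := exU k w hk
  set V : ℕ := w.factorial ^ (L + 1) with hVdef
  have hV0 : 0 < V := pow_pos (Nat.factorial_pos w) _
  have hφ : 0 < Nat.totient (k ^ L) := Nat.totient_pos.2 (pow_pos (by omega) _)
  refine ⟨U, N * Nat.totient (k ^ L) * (2 * V) * A, hU0, ?_, ?_, ?_, hUk, ?_, ?_, ?_⟩
  · exact Nat.succ_le_of_lt (by positivity)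
  · exact ⟨Nat.totient (k ^ L) * (2 * V) * A, by ring⟩
  · exact Nat.le_of_dvd (by positivity) (Dvd.intro_left _ rfl)
  · have e : N * Nat.totient (k ^ L) * (2 * V) * A = Nat.totient (k ^ L) * (N * (2 * V) * A) := by
      ring
    rw [e, pow_mul]
    have h1 : U ^ Nat.totient (k ^ L) ≡ 1 [MOD k ^ L] :=
      Nat.ModEq.pow_totient (Nat.Coprime.pow_right L hUk)
    have h2 := h1.pow (N * (2 * V) * A)
    rwa [one_pow] at h2
  · intro p hp h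
    rcases (Nat.Prime.dvd_mul hp).1 h with h1 | h1
    · exact (Nat.le_of_dvd (by omega) h1).trans hkw
    · exact hU1 p hp h1
  · intro b hb
    have h1 : 2 * V ∣ (k * U) ^ (2 * V) := by
      refine dvd_pow_of _ _ (by positivity) (by positivity) ?_
      intro p hp h
      refine hU2 p hp ?_
      rcases (Nat.Prime.dvd_mul hp).1 h with h1 | h1
      · have := Nat.le_of_dvd (by norm_num) h1
        omega
      · exact (Nat.Prime.dvd_factorial hp).1 (hp.dvd_of_dvd_pow h1)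
    have hle : 2 * V ≤ N * Nat.totient (k ^ L) * (2 * V) * A :=
      Nat.le_of_dvd (by positivity) ⟨N * Nat.totient (k ^ L) * A, by ring⟩
    refine h1.trans ((pow_dvd_pow _ hle).trans ?_)
    rw [mul_pow]
    exact Nat.mul_dvd_mul (pow_dvd_pow _ hb) dvd_rfl

theorem nsz {G : Type} [AddCommGroup G] {b : ℕ} (h : Nat.card G ∣ b) (x : G) :
    b • x = 0 := by
  obtain ⟨c, rfl⟩ := h
  rw [mul_nsmul, card_nsmul_eq_zero', nsmul_zero]

theorem bt (hV : S_VAN) (hC : S_CB) (hN : S_CNT) (hP : S_POS) : S_BT := by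
  classical
  intro k hk G _ _ f hf L η hη
  obtain ⟨C, hC0, hCB⟩ := hC
  have hN1 : 1 ≤ Nat.card G := Nat.card_pos
  let P : Set (AddChar G ℂ) := {ψ | Pt (gg f ψ)}
  have hch : ∀ ψ : AddChar G ℂ, ∃ (q : ℕ) (χ : DirichletCharacter ℂ q), 1 ≤ q ∧ (ψ ∈ P →
      Summable (fun p : ℕ => if p.Prime ∧ gg f ψ p ≠ χ (p : ZMod q) then (1 : ℝ) / p else 0)) := by
    intro ψ
    by_cases h : ψ ∈ P
    · obtain ⟨q, χ, h1, h2⟩ := h
      exact ⟨q, χ, h1, fun _ => by convert h2⟩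
    · exact ⟨1, 1, le_rfl, fun h' => absurd h' h⟩
  choose q χ hq hs using hch
  let 𝔅 : Set ℕ := {p | p.Prime ∧ ∃ ψ ∈ P, gg f ψ p ≠ χ ψ (p : ZMod (q ψ))}
  have hB1 : ∀ p ∈ 𝔅, p.Prime := fun p hp => hp.1
  have hB2 : Summable (fun p : ℕ => if p ∈ 𝔅 then (1 : ℝ) / p else 0) := by
    have h1 : Summable (fun p : ℕ => ∑ ψ : AddChar G ℂ, if ψ ∈ P then
        (if p.Prime ∧ gg f ψ p ≠ χ ψ (p : ZMod (q ψ)) then (1 : ℝ) / p else 0) else 0) := by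
      refine summable_sum fun ψ _ => ?_
      by_cases h : ψ ∈ P
      · simp only [if_pos h]
        exact hs ψ h
      · simp only [if_neg h]
        exact summable_zero
    refine Summable.of_nonneg_of_le (fun p => ?_) (fun p => ?_) h1
    · split_ifs <;> positivity
    · by_cases hp : p ∈ 𝔅
      · rw [if_pos hp]
        obtain ⟨hp1, ψ, hψ, hne⟩ := hp
        have e : (1 : ℝ) / p = (fun ψ : AddChar G ℂ => if ψ ∈ P then
            (if p.Prime ∧ gg f ψ p ≠ χ ψ (p : ZMod (q ψ)) then (1 : ℝ) / p else 0) else 0) ψ := by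
          simp only
          rw [if_pos hψ, if_pos ⟨hp1, hne⟩]
        refine le_of_eq_of_le e (Finset.single_le_sum (f := fun ψ : AddChar G ℂ => if ψ ∈ P then
            (if p.Prime ∧ gg f ψ p ≠ χ ψ (p : ZMod (q ψ)) then (1 : ℝ) / p else 0) else 0)
            (fun ψ' _ => ?_) (Finset.mem_univ ψ))
        beta_reduce
        split_ifs <;> positivity
      · rw [if_neg hp]
        exact Finset.sum_nonneg fun ψ _ => by split_ifs <;> positivity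
  obtain ⟨w₀, hw₀⟩ : ∃ w₀ : ℕ, ∀ w : ℕ, w₀ ≤ w →
      C * ∑' p : ℕ, (if p ∈ 𝔅 ∧ w < p then (1 : ℝ) / p else 0) ≤ 1 / 8 := by
    have h1 := (tail_zero hB2).const_mul C
    rw [mul_zero] at h1
    obtain ⟨w₀, h2⟩ := eventually_atTop.1 (h1.eventually_le_const (show (0 : ℝ) < 1 / 8 by norm_num))
    refine ⟨w₀, fun w hw => ?_⟩
    refine le_of_eq_of_le ?_ (h2 w hw)
    congr 1
    refine tsum_congr fun p => ?_
    by_cases h3 : p ∈ 𝔅 <;> by_cases h4 : w < p <;> simp [h3, h4]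
  set w : ℕ := w₀ + k + ∑ ψ : AddChar G ℂ, q ψ with hw
  have hqw : ∀ ψ, q ψ ≤ w := by
    intro ψ
    have := Finset.single_le_sum (f := q) (fun ψ' _ => Nat.zero_le _) (Finset.mem_univ ψ)
    omega
  have htail := hw₀ w (by omega)
  have hkw : k ≤ w := by omega
  obtain ⟨A', hA'⟩ := exists_nat_ge (8 / η)
  set A : ℕ := A' + 1 with hA
  have hAη : 8 ≤ η * A := by
    rw [div_le_iff₀ hη] at hA'
    rw [hA]
    push_cast
    nlinarith
  obtain ⟨U, B, hU0, hB0, hNB, hAB, hUk, hUB, hpw, hdiv⟩ := arith (L := L) hk hkw hN1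
    (show 1 ≤ A by omega)
  refine ⟨B, hB0, fun a b ha hb hBa hBb => ?_⟩
  have hBa' : B ≤ a := Nat.le_of_dvd (by omega) hBa
  have hBb' : B ≤ b := Nat.le_of_dvd (by omega) hBb
  obtain ⟨t, ht⟩ := hdiv b hBb'
  set V : ℕ := w.factorial ^ (L + 1) with hVdef
  have hV0 : 0 < V := pow_pos (Nat.factorial_pos w) _
  have hkV : k ^ L ∣ V := (pow_dvd_pow_of_dvd (Nat.dvd_factorial (by omega) hkw) L).trans
    (pow_dvd_pow _ (by omega))
  have hk1V : k ∣ V := (Nat.dvd_factorial (by omega) hkw).trans (dvd_pow_self _ (by omega))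
  have hqV : ∀ ψ, q ψ ∣ V := fun ψ => (Nat.dvd_factorial (hq ψ) (hqw ψ)).trans
    (dvd_pow_self _ (by omega))
  have hVp : ∀ p : ℕ, p.Prime → p ≤ w → p ∣ V := fun p hp h =>
    (Nat.dvd_factorial hp.pos h).trans (dvd_pow_self _ (by omega))
  set h : ℕ := V * t with hh
  have hV1 : k ^ b * U ^ B = 2 * h := by rw [ht, hh]; ring
  have hk0 : 0 < k := by omega
  have hh0 : 0 < h := by
    have : 0 < k ^ b * U ^ B := by positivity
    omega
  set R : ℕ := 2 * h * k ^ a with hR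
  have hka : 0 < k ^ a := pow_pos hk0 a
  have hhR : h < R := by
    rw [hR]
    nlinarith
  have hR0 : 0 < R := by omega
  set a₀ : ℕ := (A + 1) * R with ha₀
  have hRa : R * A < a₀ := by
    rw [ha₀]
    nlinarith
  have hAK : A ≤ k ^ a := by
    have h1 : a < 2 ^ a := Nat.lt_two_pow_self
    have h2 : 2 ^ a ≤ k ^ a := Nat.pow_le_pow_left hk a
    omega
  have hfV : f (2 * h) = 0 := by
    rw [← hV1, hf _ _ (pow_pos hk0 b) (pow_pos hU0 B), f_pow hf hk0, f_pow hf hU0,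
      nsz (hNB.trans hBb), nsz hNB, add_zero]
  -- the pairs
  have hpr : ∀ x : ℕ, ∀ z ∈ sec R a₀ A V x, Pr V h z.1 z.2 (z.1 - h * z.2) := by
    intro x z hz
    rw [mem_sec] at hz
    obtain ⟨⟨⟨h1, -⟩, h2, -⟩, h3, -, h5, h6⟩ := hz
    have h7 : h * z.2 < R * z.2 := Nat.mul_lt_mul_of_pos_right hhR (by omega)
    exact ⟨by omega, by omega, by omega, by omega, h6, h5, Dvd.intro _ rfl⟩
  let F₁ : ℕ × ℕ → G := fun z => f (2 * h * z.1 * z.2) - f (z.1 ^ 2 + h ^ 2 * z.2 ^ 2)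
  let F₂ : ℕ × ℕ → G := fun z => f ((z.1 - h * z.2) * (z.1 + h * z.2)) -
    f (z.1 ^ 2 + h ^ 2 * z.2 ^ 2)
  have hval : ∀ (ψ₁ ψ₂ : AddChar G ℂ) (z : ℕ × ℕ), Pr V h z.1 z.2 (z.1 - h * z.2) →
      ψ₁ (F₁ z) * ψ₂ (F₂ z) = gg f ψ₁ z.1 * gg f ψ₁ z.2 * gg f ψ₂ (z.1 - h * z.2) *
        gg f ψ₂ (z.1 + h * z.2) *
        conj (gg f ψ₁ (z.1 ^ 2 + h ^ 2 * z.2 ^ 2) * gg f ψ₂ (z.1 ^ 2 + h ^ 2 * z.2 ^ 2)) := by
    intro ψ₁ ψ₂ z hz
    have m0 := hz.m0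
    have n0 := hz.n0
    have d0 := hz.d0
    have s0 : 0 < z.1 + h * z.2 := by omega
    have z0 : 0 < z.1 ^ 2 + h ^ 2 * z.2 ^ 2 := by positivity
    rw [gg_pos f _ m0, gg_pos f _ n0, gg_pos f _ d0, gg_pos f _ s0, gg_pos f _ z0, gg_pos f _ z0]
    change ψ₁ (f (2 * h * z.1 * z.2) - f (z.1 ^ 2 + h ^ 2 * z.2 ^ 2)) *
      ψ₂ (f ((z.1 - h * z.2) * (z.1 + h * z.2)) - f (z.1 ^ 2 + h ^ 2 * z.2 ^ 2)) = _
    rw [char_sub, char_sub, hf (2 * h * z.1) z.2 (by positivity) n0,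
      hf (2 * h) z.1 (by positivity) m0, hfV, zero_add, hf _ _ d0 s0, AddChar.map_add_eq_mul,
      AddChar.map_add_eq_mul, map_mul]
    ring
  -- a good pair
  have hgood : ∀ (ψ₁ ψ₂ : AddChar G ℂ), ψ₁ ∈ P → ψ₂ ∈ P → ∀ z : ℕ × ℕ,
      Pr V h z.1 z.2 (z.1 - h * z.2) → (¬ ∃ p ∈ 𝔅, w < p ∧
        p ∣ z.1 * z.2 * ((z.1 - h * z.2) * (z.1 + h * z.2)) * (z.1 ^ 2 + h ^ 2 * z.2 ^ 2)) →
      ψ₁ (F₁ z) * ψ₂ (F₂ z) = 1 := by
    intro ψ₁ ψ₂ h1 h2 z hz hbad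
    rw [hval ψ₁ ψ₂ z hz]
    obtain ⟨e1, e2, e3, cn, cd, cs, cz⟩ := hz.facts
    have m0 := hz.m0
    have n0 := hz.n0
    have d0 := hz.d0
    have s0 : 0 < z.1 + h * z.2 := by omega
    have z0 : 0 < z.1 ^ 2 + h ^ 2 * z.2 ^ 2 := by positivity
    have key : ∀ ψ ∈ P, ∀ u : ℕ, 0 < u → Nat.Coprime u V →
        u ∣ z.1 * z.2 * ((z.1 - h * z.2) * (z.1 + h * z.2)) * (z.1 ^ 2 + h ^ 2 * z.2 ^ 2) →
        gg f ψ u = χ ψ (u : ZMod (q ψ)) := by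
      intro ψ hψ u hu huV hud
      refine eq_char (gg_CM hf ψ) (χ ψ) ?_ hu ?_
      · rw [gg_pos f ψ one_pos, f_one hf, AddChar.map_zero_eq_one]
      · intro p hp hpu
        by_contra hne
        refine hbad ⟨p, ⟨hp, ψ, hψ, hne⟩, ?_, hpu.trans hud⟩
        by_contra hle
        have h5 := hVp p hp (by omega)
        have h6 := Nat.dvd_gcd hpu h5
        rw [huV] at h6
        exact hp.one_lt.ne' (Nat.dvd_one.1 h6)
    have dm : z.1 ∣ z.1 * z.2 * ((z.1 - h * z.2) * (z.1 + h * z.2)) *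
        (z.1 ^ 2 + h ^ 2 * z.2 ^ 2) :=
      ⟨z.2 * ((z.1 - h * z.2) * (z.1 + h * z.2)) * (z.1 ^ 2 + h ^ 2 * z.2 ^ 2), by ring⟩
    have dn : z.2 ∣ z.1 * z.2 * ((z.1 - h * z.2) * (z.1 + h * z.2)) *
        (z.1 ^ 2 + h ^ 2 * z.2 ^ 2) :=
      ⟨z.1 * ((z.1 - h * z.2) * (z.1 + h * z.2)) * (z.1 ^ 2 + h ^ 2 * z.2 ^ 2), by ring⟩
    have dd : (z.1 - h * z.2) ∣ z.1 * z.2 * ((z.1 - h * z.2) * (z.1 + h * z.2)) *
        (z.1 ^ 2 + h ^ 2 * z.2 ^ 2) :=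
      ⟨z.1 * z.2 * (z.1 + h * z.2) * (z.1 ^ 2 + h ^ 2 * z.2 ^ 2), by ring⟩
    have ds : (z.1 + h * z.2) ∣ z.1 * z.2 * ((z.1 - h * z.2) * (z.1 + h * z.2)) *
        (z.1 ^ 2 + h ^ 2 * z.2 ^ 2) :=
      ⟨z.1 * z.2 * (z.1 - h * z.2) * (z.1 ^ 2 + h ^ 2 * z.2 ^ 2), by ring⟩
    have dz : (z.1 ^ 2 + h ^ 2 * z.2 ^ 2) ∣ z.1 * z.2 * ((z.1 - h * z.2) * (z.1 + h * z.2)) *
        (z.1 ^ 2 + h ^ 2 * z.2 ^ 2) := Dvd.intro_left _ rfl
    have g1 : gg f ψ₁ z.1 * gg f ψ₁ z.2 = gg f ψ₁ (z.1 ^ 2 + h ^ 2 * z.2 ^ 2) := by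
      rw [key ψ₁ h1 _ m0 hz.co dm, key ψ₁ h1 _ n0 cn dn, key ψ₁ h1 _ z0 cz dz, ← map_mul,
        ← Nat.cast_mul, cast_eq (hqV ψ₁) (e1.trans e3.symm)]
    have g2 : gg f ψ₂ (z.1 - h * z.2) * gg f ψ₂ (z.1 + h * z.2) =
        gg f ψ₂ (z.1 ^ 2 + h ^ 2 * z.2 ^ 2) := by
      rw [key ψ₂ h2 _ d0 cd dd, key ψ₂ h2 _ s0 cs ds, key ψ₂ h2 _ z0 cz dz, ← map_mul,
        ← Nat.cast_mul, cast_eq (hqV ψ₂) (e2.trans e3.symm)]
    rw [mul_assoc (gg f ψ₁ z.1 * gg f ψ₁ z.2), g1, g2, gg_pos f _ z0, gg_pos f _ z0, map_mul]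
    have c1 := char_conj ψ₁ (f (z.1 ^ 2 + h ^ 2 * z.2 ^ 2))
    have c2 := char_conj ψ₂ (f (z.1 ^ 2 + h ^ 2 * z.2 ^ 2))
    calc _ = (ψ₁ (f (z.1 ^ 2 + h ^ 2 * z.2 ^ 2)) * conj (ψ₁ (f (z.1 ^ 2 + h ^ 2 * z.2 ^ 2)))) *
          (ψ₂ (f (z.1 ^ 2 + h ^ 2 * z.2 ^ 2)) * conj (ψ₂ (f (z.1 ^ 2 + h ^ 2 * z.2 ^ 2)))) := by ring
      _ = 1 := by rw [c1, c2, mul_one]
  -- the counts
  obtain ⟨c₁, hc₁, K₁, hK₁⟩ := hN V R a₀ A hV0 (by omega) hRa
  have hNR : (0 : ℝ) < 8 * (Nat.card G : ℝ) ^ 2 := by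
    have : (0 : ℝ) < (Nat.card G : ℝ) := by exact_mod_cast hN1
    positivity
  have ev1 : ∀ᶠ x : ℕ in atTop, ∀ ψ₁ ψ₂ : AddChar G ℂ, ψ₁ ∉ P ∨ ψ₂ ∉ P →
      ‖∑ z ∈ sec R a₀ A V x, gg f ψ₁ z.1 * gg f ψ₁ z.2 * gg f ψ₂ (z.1 - h * z.2) *
        gg f ψ₂ (z.1 + h * z.2) *
        conj (gg f ψ₁ (z.1 ^ 2 + h ^ 2 * z.2 ^ 2) * gg f ψ₂ (z.1 ^ 2 + h ^ 2 * z.2 ^ 2))‖ ≤
        c₁ / (8 * (Nat.card G : ℝ) ^ 2) * (x : ℝ) ^ 2 := by
    rw [eventually_all]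
    intro ψ₁
    rw [eventually_all]
    intro ψ₂
    by_cases h1 : ψ₁ ∉ P ∨ ψ₂ ∉ P
    · obtain ⟨K, hK⟩ := hV (Nat.card G) (gg f ψ₁) (gg f ψ₂)
        (fun n => conj (gg f ψ₁ n * gg f ψ₂ n)) (gg_CM hf ψ₁) (gg_CM hf ψ₂)
        (CM_conj (gg_CM hf ψ₁) (gg_CM hf ψ₂)) h1 h V R a₀ A hh0 hV0 hhR (by omega)
        (c₁ / (8 * (Nat.card G : ℝ) ^ 2)) (by positivity)
      filter_upwards [eventually_ge_atTop K] with x hx _
      exact hK x hx
    · exact Eventually.of_forall fun x h2 => absurd h2 h1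
  obtain ⟨K₂, hK₂⟩ := hCB 𝔅 hB1 (by convert hB2) w h V R a₀ A hh0 hV0 hhR (by omega)
    (by rw [mul_comm]; exact (mul_comm A R) ▸ hRa) (by
      intro p hp hd
      rcases (Nat.Prime.dvd_mul hp).1 hd with h1 | h1
      · exact (Nat.Prime.dvd_factorial hp).1 (hp.dvd_of_dvd_pow h1)
      · refine hpw p hp ?_
        have h2 : p ∣ k ^ b * U ^ B := by
          rw [hV1]
          exact Dvd.dvd.mul_left h1 2
        rcases (Nat.Prime.dvd_mul hp).1 h2 with h3 | h3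
        · exact Dvd.dvd.mul_right (hp.dvd_of_dvd_pow h3) _
        · exact Dvd.dvd.mul_left (hp.dvd_of_dvd_pow h3) _) (c₁ / 8) (by positivity)
  obtain ⟨x, e1, hx⟩ := (ev1.and (eventually_ge_atTop (K₁ + K₂ + 1))).exists
  have e2 := hK₂ x (by omega)
  have e3 := hK₁ x (by omega)
  have hx1 : (1 : ℝ) ≤ x := by exact_mod_cast (show 1 ≤ x by omega)
  set s := sec R a₀ A V x with hsdef
  have hs0 : (0 : ℝ) < (s.card : ℝ) := lt_of_lt_of_le (by positivity) e3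
  have hsne : s.Nonempty := by
    rw [← Finset.card_pos]
    exact_mod_cast hs0
  obtain ⟨z, hz, hF1, hF2⟩ := hP G (ℕ × ℕ) s F₁ F₂ P (pt_one hf) hsne (by
      intro ψ₁ ψ₂ h1
      have h2 : ∑ i ∈ s, ψ₁ (F₁ i) * ψ₂ (F₂ i) = ∑ z ∈ s,
          gg f ψ₁ z.1 * gg f ψ₁ z.2 * gg f ψ₂ (z.1 - h * z.2) * gg f ψ₂ (z.1 + h * z.2) *
          conj (gg f ψ₁ (z.1 ^ 2 + h ^ 2 * z.2 ^ 2) * gg f ψ₂ (z.1 ^ 2 + h ^ 2 * z.2 ^ 2)) :=
        Finset.sum_congr rfl fun z hz => hval ψ₁ ψ₂ z (hpr x z hz)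
      rw [h2]
      refine (e1 ψ₁ ψ₂ h1).trans ?_
      have h3 : c₁ / (8 * (Nat.card G : ℝ) ^ 2) * (x : ℝ) ^ 2 =
          1 / (8 * (Nat.card G : ℝ) ^ 2) * (c₁ * (x : ℝ) ^ 2) := by ring
      rw [h3]
      gcongr) (by
      intro ψ₁ ψ₂ h1 h2
      have h3 : (s.filter (fun i => ψ₁ (F₁ i) * ψ₂ (F₂ i) ≠ 1)).card ≤
          (s.filter (fun z => ∃ p ∈ 𝔅, w < p ∧
            p ∣ z.1 * z.2 * ((z.1 - h * z.2) * (z.1 + h * z.2)) *
              (z.1 ^ 2 + h ^ 2 * z.2 ^ 2))).card := by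
        refine Finset.card_le_card fun z hz => ?_
        rw [Finset.mem_filter] at hz ⊢
        refine ⟨hz.1, ?_⟩
        by_contra hcon
        exact hz.2 (hgood ψ₁ ψ₂ h1 h2 z (hpr x z hz.1) hcon)
      have h4 : ((s.filter (fun i => ψ₁ (F₁ i) * ψ₂ (F₂ i) ≠ 1)).card : ℝ) ≤
          C * (∑' p : ℕ, if p ∈ 𝔅 ∧ w < p then (1 : ℝ) / p else 0) * (s.card : ℝ) +
            c₁ / 8 * (x : ℝ) ^ 2 := by
        have h3' : ((s.filter (fun i => ψ₁ (F₁ i) * ψ₂ (F₂ i) ≠ 1)).card : ℝ) ≤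
            ((s.filter (fun z => ∃ p ∈ 𝔅, w < p ∧
              p ∣ z.1 * z.2 * ((z.1 - h * z.2) * (z.1 + h * z.2)) *
                (z.1 ^ 2 + h ^ 2 * z.2 ^ 2))).card : ℝ) := by exact_mod_cast h3
        refine (h3'.trans (le_of_eq ?_)).trans (e2.trans (le_of_eq ?_)) <;> congr!
      have h5 : C * (∑' p : ℕ, if p ∈ 𝔅 ∧ w < p then (1 : ℝ) / p else 0) * (s.card : ℝ) ≤
          1 / 8 * (s.card : ℝ) := by gcongr
      have h6 : 4 * ((s.filter (fun i => ψ₁ (F₁ i) * ψ₂ (F₂ i) ≠ 1)).card : ℝ) ≤ (s.card : ℝ) := by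
        linarith
      convert h6)
  -- the triple
  have hzp := hpr x z hz
  obtain ⟨i1, i2, i3, cn, -, -, -⟩ := hzp.facts
  rw [hsdef, mem_sec] at hz
  obtain ⟨-, j1, j2, -, -⟩ := hz
  have m0 := hzp.m0
  have n0 := hzp.n0
  have d0 := hzp.d0
  have hsz := sizes (m := z.1) (n := z.2) (d := z.1 - h * z.2) (h := h) (R := R) (A := A)
    (K := k ^ a) hη (by omega) hAη hAK hR hzp.eq j1 (by rw [ha₀] at j2; exact j2)
  have hkx : k ^ b * (U ^ B * z.1 * z.2) = 2 * h * z.1 * z.2 := by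
    rw [← hV1]
    ring
  refine ⟨U ^ B * z.1 * z.2, (z.1 - h * z.2) * (z.1 + h * z.2), z.1 ^ 2 + h ^ 2 * z.2 ^ 2,
    by positivity, Nat.mul_pos d0 (by omega), by positivity, ?_, ?_, ?_, ?_, ?_, hsz.2, ?_, ?_⟩
  · rw [hkx]
    obtain ⟨d, hd⟩ : ∃ d, z.1 - h * z.2 = d := ⟨_, rfl⟩
    have hm := hzp.eq
    rw [hd] at hm ⊢
    rw [hm]
    ring
  · -- `x ≡ y`
    have h1 : U ^ B * z.1 * z.2 ≡ z.1 * z.2 [MOD k ^ L] := by
      have := hUB.mul_right (z.1 * z.2)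
      rwa [one_mul, ← mul_assoc] at this
    exact h1.trans ((i1.trans i2.symm).of_dvd hkV)
  · exact (i2.trans i3.symm).of_dvd hkV
  · refine Nat.Coprime.mul_left (Nat.Coprime.mul_left (Nat.Coprime.pow_left B hUk) ?_) ?_
    · exact Nat.Coprime.coprime_dvd_right hk1V hzp.co
    · exact Nat.Coprime.coprime_dvd_right hk1V cn
  · have e : (k : ℝ) ^ (a + b) * ((U ^ B * z.1 * z.2 : ℕ) : ℝ) = ((R * z.1 * z.2 : ℕ) : ℝ) := by
      have h1 : k ^ (a + b) * (U ^ B * z.1 * z.2) = R * z.1 * z.2 := by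
        rw [hR, ← hV1]
        ring
      rw [← h1]
      push_cast
      ring
    rw [e]
    exact hsz.1
  · rw [hkx]
    have h1 : f (2 * h * z.1 * z.2) - f (z.1 ^ 2 + h ^ 2 * z.2 ^ 2) = 0 := hF1
    have h2 : f ((z.1 - h * z.2) * (z.1 + h * z.2)) - f (z.1 ^ 2 + h ^ 2 * z.2 ^ 2) = 0 := hF2
    rw [sub_eq_zero] at h1 h2
    rw [h1, h2]
  · have h2 : f ((z.1 - h * z.2) * (z.1 + h * z.2)) - f (z.1 ^ 2 + h ^ 2 * z.2 ^ 2) = 0 := hF2
    rwa [sub_eq_zero] at h2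

end Pool.Agent.N700.PY.BT
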